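import Pool.Agent.H96R3.BC.Stmts

/-!
# BIGCOEF, TASK FIX, part A: the normalised kernel and the defect of the weights
-/

set_option autoImplicit false

open Finset

namespace Pool.Agent.H336R4.BC

open Pool.Agent.H96R3.BC

/-- the kernel without the power of `v` -/
noncomputable def ph (Q : ℕ) (x : ℝ) : ℝ :=
  ∑' j : ℕ, (-x) ^ j / ((j.factorial : ℝ) * ((4 * Q + 3 + j).factorial : ℝ))

lemma KK_eq (Q : ℕ) (u v : ℝ) : KK (4 * Q + 4) u v = v ^ (4 * Q + 3) * ph Q (u * v) := rfl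

lemma ph_eq (Q : ℕ) (x : ℝ) : ph Q x = KK (4 * Q + 4) x 1 := by
  rw [KK_eq, one_pow, one_mul, mul_one]

lemma ph_cont (h1 : TaskKer1) (Q : ℕ) : Continuous (ph Q) := by
  have h := (h1 (4 * Q + 4) (by omega)).2.1
  have h2 : Continuous fun x : ℝ => KK (4 * Q + 4) x 1 :=
    h.comp (continuous_id.prodMk continuous_const)
  exact h2.congr fun x => (ph_eq Q x).symm

lemma ph_le (h2 : TaskKer2) (Q : ℕ) {x : ℝ} (hx : 0 ≤ x) : |ph Q x| ≤ 3 := by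
  have h := (h2 (4 * Q + 4) (by omega) x 1 hx zero_le_one).1
  rw [← ph_eq, one_pow, mul_one] at h
  exact h

lemma ph_decay (h2 : TaskKer2) (Q : ℕ) (hQ : 1 ≤ Q) {x : ℝ} (hx : 0 ≤ x) :
    |ph Q x| * x ^ (Q + 1) ≤ 3 := by
  rcases le_total x 1 with h | h
  · calc |ph Q x| * x ^ (Q + 1) ≤ 3 * 1 :=
          mul_le_mul (ph_le h2 Q hx) (pow_le_one₀ hx h) (by positivity) (by norm_num)
      _ = 3 := by norm_num
  · have h3 := (h2 (4 * Q + 4) (by omega) x 1 hx zero_le_one).2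
    rw [← ph_eq, one_pow] at h3
    have h4 : (|ph Q x| * x ^ (Q + 1)) ^ 2 ≤ 1 := by
      calc (|ph Q x| * x ^ (Q + 1)) ^ 2 = ph Q x ^ 2 * x ^ (2 * (Q + 1)) := by
            rw [mul_pow, sq_abs, ← pow_mul]; ring_nf
        _ ≤ ph Q x ^ 2 * x ^ (4 * Q + 4 - 1) := by
            apply mul_le_mul_of_nonneg_left _ (sq_nonneg _)
            exact pow_le_pow_right₀ h (by omega)
        _ ≤ 1 := h3
    have h5 : |ph Q x| * x ^ (Q + 1) ≤ 1 := by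
      have h6 : 0 ≤ |ph Q x| * x ^ (Q + 1) := by positivity
      nlinarith
    linarith

/-- the weight -/
noncomputable def WW (Q : ℕ) (v : ℝ) : ℝ := (max 1 v) ^ (Q + 1)

lemma WW_pos (Q : ℕ) (v : ℝ) : 0 < WW Q v := pow_pos (lt_max_of_lt_left one_pos) _

lemma WW_one_le (Q : ℕ) (v : ℝ) : 1 ≤ WW Q v := one_le_pow₀ (le_max_left _ _)

lemma WW_of_le {Q : ℕ} {v : ℝ} (h : v ≤ 1) : WW Q v = 1 := by
  unfold WW; rw [max_eq_left h, one_pow]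

lemma WW_of_ge {Q : ℕ} {v : ℝ} (h : 1 ≤ v) : WW Q v = v ^ (Q + 1) := by
  unfold WW; rw [max_eq_right h]

lemma WW_cont (Q : ℕ) : Continuous (WW Q) := (continuous_const.max continuous_id).pow _

/-- the defect of the weights, tested on the normalised kernel -/
noncomputable def ee (Q j₀ : ℕ) (w : ℕ → ℝ → ℝ) (j : ℕ) (u v : ℝ) : ℝ :=
  ph Q (u * v) - ∑ p ∈ CC Q j, w p u * ph Q (vv Q j₀ p * v)

lemma EE_eq (Q j₀ : ℕ) (w : ℕ → ℝ → ℝ) (j : ℕ) (u v : ℝ) :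
    EE Q j₀ w j u v = v ^ (4 * Q + 3) * ee Q j₀ w j u v := by
  unfold EE ee
  rw [KK_eq, mul_sub, Finset.mul_sum]
  congr 1
  refine Finset.sum_congr rfl fun p _ => ?_
  rw [KK_eq]; ring

/-- length of a cell -/
noncomputable def hh (j₀ j : ℕ) : ℝ := UU j₀ (j + 1) - UU j₀ j

lemma UU_mono (j₀ : ℕ) : Monotone (UU j₀) := by
  intro a b h
  unfold UU
  apply Real.sqrt_le_sqrt
  have : (a : ℝ) ≤ b := by exact_mod_cast h
  exact div_le_div_of_nonneg_right this (by positivity)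

lemma hh_nonneg (j₀ j : ℕ) : 0 ≤ hh j₀ j := sub_nonneg.2 (UU_mono j₀ (by omega))

lemma UU_one_le {j₀ j : ℕ} (h0 : 1 ≤ j₀) (h : j₀ ≤ j) : 1 ≤ UU j₀ j := by
  unfold UU
  rw [Real.one_le_sqrt]
  rw [one_le_div (by exact_mod_cast h0)]
  exact_mod_cast h

lemma UU_self {j₀ : ℕ} (h0 : 1 ≤ j₀) : UU j₀ j₀ = 1 := by
  unfold UU
  rw [div_self (by positivity), Real.sqrt_one]

lemma ee_zero {Q j₀ : ℕ} {C : ℝ} {a0 : ℕ → ℝ} {w : ℕ → ℝ → ℝ} (hw : Wts Q j₀ C a0 w) {j : ℕ} (hj : j₀ ≤ j) {u : ℝ}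
    (hu : UU j₀ j ≤ u) (hu2 : u ≤ UU j₀ (j + 1)) : ee Q j₀ w j u 0 = 0 := by
  unfold ee
  have h := hw.mom j hj u hu hu2 1 (by simp)
  simp only [Polynomial.eval_one, mul_one] at h
  simp only [mul_zero]
  rw [← Finset.sum_mul, h, one_mul, sub_self]

lemma ee_le_small (h1 : TaskKer1) (h2 : TaskKer2) (hd : TaskDef) {Q j₀ : ℕ} {C : ℝ} {a0 : ℕ → ℝ} {w : ℕ → ℝ → ℝ}
    (hQ : 1 ≤ Q) (hj0 : 1 ≤ j₀) (hw : Wts Q j₀ C a0 w) {j : ℕ} (hj : j₀ ≤ j) {u : ℝ}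
    (hu : UU j₀ j ≤ u) (hu2 : u ≤ UU j₀ (j + 1)) {v : ℝ} (hv : 0 ≤ v) :
    |ee Q j₀ w j u v| ≤ 3 * (1 + C) * hh j₀ j ^ (4 * Q + 4) * v ^ (4 * Q + 4) := by
  rcases hv.eq_or_lt with h | h
  · rw [← h, ee_zero hw hj hu hu2, abs_zero, zero_pow (by omega), mul_zero]
  · have h3 := (hd h1 h2 Q j₀ C a0 w hQ hj0 hw j hj u hu hu2 v hv).2
    rw [EE_eq, abs_mul, abs_of_nonneg (by positivity : (0:ℝ) ≤ v ^ (4 * Q + 3))] at h3
    have h4 : (v:ℝ) ^ (8 * Q + 7) = v ^ (4 * Q + 3) * v ^ (4 * Q + 4) := by rw [← pow_add]; congr 1; ring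
    rw [h4] at h3
    have h5 : v ^ (4 * Q + 3) * |ee Q j₀ w j u v| ≤
        v ^ (4 * Q + 3) * (3 * (1 + C) * hh j₀ j ^ (4 * Q + 4) * v ^ (4 * Q + 4)) := by
      refine h3.trans (le_of_eq ?_)
      unfold hh; ring
    exact le_of_mul_le_mul_left h5 (by positivity)

lemma ee_le_large (h1 : TaskKer1) (h2 : TaskKer2) (hd : TaskDef) {Q j₀ : ℕ} {C : ℝ} {a0 : ℕ → ℝ} {w : ℕ → ℝ → ℝ}
    (hQ : 1 ≤ Q) (hj0 : 1 ≤ j₀) (hw : Wts Q j₀ C a0 w) {j : ℕ} (hj : j₀ ≤ j) {u : ℝ}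
    (hu : UU j₀ j ≤ u) (hu2 : u ≤ UU j₀ (j + 1)) {v : ℝ} (hv : 0 < v) :
    |ee Q j₀ w j u v| * v ^ (Q + 1) ≤ (1 + C) * hh j₀ j ^ (2 * Q + 1) / UU j₀ j ^ (3 * Q + 2) := by
  have h3 := (hd h1 h2 Q j₀ C a0 w hQ hj0 hw j hj u hu hu2 v hv.le).1
  have hU : 0 < UU j₀ j := lt_of_lt_of_le one_pos (UU_one_le hj0 hj)
  rw [EE_eq, abs_mul, abs_of_nonneg (by positivity : (0:ℝ) ≤ v ^ (4 * Q + 3)), div_pow] at h3
  have h4 : (v:ℝ) ^ (4 * Q + 3) = v ^ (3 * Q + 2) * v ^ (Q + 1) := by rw [← pow_add]; congr 1; ring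
  rw [h4] at h3
  have h5 : v ^ (3 * Q + 2) * (|ee Q j₀ w j u v| * v ^ (Q + 1)) ≤
      v ^ (3 * Q + 2) * ((1 + C) * hh j₀ j ^ (2 * Q + 1) / UU j₀ j ^ (3 * Q + 2)) := by
    calc v ^ (3 * Q + 2) * (|ee Q j₀ w j u v| * v ^ (Q + 1))
        = v ^ (3 * Q + 2) * v ^ (Q + 1) * |ee Q j₀ w j u v| := by ring
      _ ≤ _ := h3
      _ = _ := by unfold hh; ring
  exact le_of_mul_le_mul_left h5 (by positivity)

/-- the combined bound of the defect -/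
noncomputable def EB (Q j₀ : ℕ) (C : ℝ) (j : ℕ) : ℝ :=
  (1 + C) * (3 * hh j₀ j ^ (4 * Q + 4) + hh j₀ j ^ (2 * Q + 1) / UU j₀ j ^ (3 * Q + 2))

lemma ee_le (h1 : TaskKer1) (h2 : TaskKer2) (hd : TaskDef) {Q j₀ : ℕ} {C : ℝ} {a0 : ℕ → ℝ} {w : ℕ → ℝ → ℝ}
    (hQ : 1 ≤ Q) (hj0 : 1 ≤ j₀) (hC : 0 ≤ C) (hw : Wts Q j₀ C a0 w) {j : ℕ} (hj : j₀ ≤ j) {u : ℝ}
    (hu : UU j₀ j ≤ u) (hu2 : u ≤ UU j₀ (j + 1)) {v : ℝ} (hv : 0 ≤ v) :
    |ee Q j₀ w j u v| * WW Q v ≤ EB Q j₀ C j := by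
  have hU : 0 < UU j₀ j := lt_of_lt_of_le one_pos (UU_one_le hj0 hj)
  have hh0 := hh_nonneg j₀ j
  unfold EB
  rcases le_total v 1 with h | h
  · rw [WW_of_le h, mul_one]
    refine (ee_le_small h1 h2 hd hQ hj0 hw hj hu hu2 hv).trans ?_
    have h3 : v ^ (4 * Q + 4) ≤ 1 := pow_le_one₀ hv h
    have h4 : 3 * (1 + C) * hh j₀ j ^ (4 * Q + 4) * v ^ (4 * Q + 4) ≤ 3 * (1 + C) * hh j₀ j ^ (4 * Q + 4) * 1 :=
      mul_le_mul_of_nonneg_left h3 (by positivity)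
    have h5 : 0 ≤ (1 + C) * (hh j₀ j ^ (2 * Q + 1) / UU j₀ j ^ (3 * Q + 2)) := by positivity
    linarith
  · rw [WW_of_ge h]
    refine (ee_le_large h1 h2 hd hQ hj0 hw hj hu hu2 (by linarith)).trans ?_
    have h5 : 0 ≤ (1 + C) * (3 * hh j₀ j ^ (4 * Q + 4)) := by positivity
    rw [mul_add, ← mul_div_assoc]
    linarith

lemma EB_nonneg {Q j₀ : ℕ} {C : ℝ} (hC : 0 ≤ C) (j : ℕ) : 0 ≤ EB Q j₀ C j := by
  have hU : 0 ≤ UU j₀ j := Real.sqrt_nonneg _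
  have hh0 := hh_nonneg j₀ j
  unfold EB
  positivity

lemma ee_cont (h1 : TaskKer1) {Q j₀ : ℕ} {C : ℝ} {a0 : ℕ → ℝ} {w : ℕ → ℝ → ℝ} (hw : Wts Q j₀ C a0 w) (j : ℕ) :
    Continuous fun x : ℝ × ℝ => ee Q j₀ w j x.1 x.2 := by
  unfold ee
  refine Continuous.sub ((ph_cont h1 Q).comp (continuous_fst.mul continuous_snd)) ?_
  refine continuous_finsetSum _ fun p _ => ?_
  exact ((hw.cont p).comp continuous_fst).mul ((ph_cont h1 Q).comp (continuous_const.mul continuous_snd))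

lemma vv_mem {Q j₀ : ℕ} (hQ : 1 ≤ Q) (hj0 : 1 ≤ j₀) {j n : ℕ} (hn : n ∈ CC Q j) :
    UU j₀ j ≤ vv Q j₀ n ∧ vv Q j₀ n ≤ UU j₀ (j + 1) := by
  have hn' := Finset.mem_Ioc.1 hn
  have hj0' : (0:ℝ) < j₀ := by exact_mod_cast hj0
  have key : ∀ i : ℕ, UU j₀ i = (((i : ℝ) ^ (2 * Q)) / (j₀ : ℝ) ^ (2 * Q)) ^ (1 / (4 * (Q : ℝ))) := by
    intro i
    unfold UU
    rw [← div_pow, Real.sqrt_eq_rpow, ← Real.rpow_natCast, ← Real.rpow_mul (by positivity)]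
    congr 1
    push_cast
    have : (Q : ℝ) ≠ 0 := by positivity
    field_simp
    norm_num
  constructor
  · rw [key]
    unfold vv
    apply Real.rpow_le_rpow (by positivity) _ (by positivity)
    apply div_le_div_of_nonneg_right _ (by positivity)
    exact_mod_cast hn'.1.le
  · rw [key]
    unfold vv
    apply Real.rpow_le_rpow (by positivity) _ (by positivity)
    apply div_le_div_of_nonneg_right _ (by positivity)
    exact_mod_cast hn'.2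

end Pool.Agent.H336R4.BC
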