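import Pool.Agent.H336R4.BC.FixA
import Pool.Agent.H96R3.BC.FixDefs
import Pool.Agent.H96R3.BC.Basic

/-!
# BIGCOEF, TASK FIXB: bounds of one cell
-/

set_option autoImplicit false

open Finset MeasureTheory

namespace Pool.Agent.H336R4.BC

open Pool.Agent.H96R3.BC

lemma NN_eq (Q : ℕ) {v : ℝ} (_hv : 0 ≤ v) : NN Q v = v ^ (4 * Q + 3) / WW Q v := by
  unfold NN
  split_ifs with h
  · rw [WW_of_le h, div_one]
  · rw [WW_of_ge (by linarith), eq_div_iff (pow_pos (by linarith) _).ne', ← pow_add]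
    congr 1; ring

lemma NN_of_ge {Q : ℕ} {v : ℝ} (hv : 1 ≤ v) : NN Q v = v ^ (3 * Q + 2) := by
  unfold NN
  split_ifs with h
  · have : v = 1 := le_antisymm h hv
    rw [this, one_pow, one_pow]
  · rfl

/-- normalised contribution of a cell -/
noncomputable def bl (Q j₀ : ℕ) (a0 : ℕ → ℝ) (w : ℕ → ℝ → ℝ) (c : ℕ → ℝ) (f : ℝ → ℝ) (j : ℕ) (v : ℝ) : ℝ :=
  ∑ n ∈ NB Q a0 j, c n * (vv Q j₀ n) ^ 2 * ee Q j₀ w j (vv Q j₀ n) v -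
    ∫ u in (UU j₀ j)..(UU j₀ (j + 1)), f u * ee Q j₀ w j u v

lemma BL_eq (Q j₀ : ℕ) (a0 : ℕ → ℝ) (w : ℕ → ℝ → ℝ) (c : ℕ → ℝ) (f : ℝ → ℝ) (j : ℕ) (v : ℝ) :
    BL Q j₀ a0 w c f j v = v ^ (4 * Q + 3) * bl Q j₀ a0 w c f j v := by
  unfold BL bl
  rw [mul_sub, Finset.mul_sum, ← intervalIntegral.integral_const_mul]
  congr 1
  · refine Finset.sum_congr rfl fun n _ => ?_
    rw [EE_eq]; ring
  · refine intervalIntegral.integral_congr fun u _ => ?_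
    rw [EE_eq]; ring

/-- normalised new density -/
noncomputable def fl (Q j₀ : ℕ) (a0 : ℕ → ℝ) (w : ℕ → ℝ → ℝ) (c : ℕ → ℝ) (f : ℝ → ℝ) (v : ℝ) : ℝ :=
  -(∫ u in (0:ℝ)..1, f u * ph Q (u * v)) + ∑' i : ℕ, bl Q j₀ a0 w c f (j₀ + i) v

lemma FL_eq (Q j₀ : ℕ) (a0 : ℕ → ℝ) (w : ℕ → ℝ → ℝ) (c : ℕ → ℝ) (f : ℝ → ℝ) (v : ℝ) :
    FL Q j₀ a0 w c f v = v ^ (4 * Q + 3) * fl Q j₀ a0 w c f v := by
  unfold FL fl
  rw [mul_add, ← tsum_mul_left, mul_neg, ← intervalIntegral.integral_const_mul]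
  congr 1
  · congr 1
    refine intervalIntegral.integral_congr fun u _ => ?_
    rw [KK_eq]; ring
  · refine tsum_congr fun i => ?_
    rw [BL_eq]

lemma NB_sub (Q : ℕ) (a0 : ℕ → ℝ) (j : ℕ) : NB Q a0 j ⊆ CC Q j := Finset.filter_subset _ _

/-- crude bound of a cell against a kernel bounded by `B` -/
lemma cell_le {Q j₀ : ℕ} {a0 : ℕ → ℝ} (hQ : 1 ≤ Q) (_hj0 : 1 ≤ j₀) {c : ℕ → ℝ} {f : ℝ → ℝ} {j : ℕ} {K : ℝ → ℝ}
    {B m F : ℝ} (hB0 : 0 ≤ B) (hF0 : 0 ≤ F)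
    (hB : ∀ u, UU j₀ j ≤ u → u ≤ UU j₀ (j + 1) → |K u| ≤ B)
    (hc : ∑ n ∈ NB Q a0 j, |c n| ≤ m)
    (hf : ∀ u, UU j₀ j ≤ u → u ≤ UU j₀ (j + 1) → |f u| ≤ F) :
    |∑ n ∈ NB Q a0 j, c n * (vv Q j₀ n) ^ 2 * K (vv Q j₀ n)| +
      |∫ u in (UU j₀ j)..(UU j₀ (j + 1)), f u * K u| ≤
    B * (UU j₀ (j + 1) ^ 2 * m + hh j₀ j * F) := by
  have hU := UU_mono j₀ (show j ≤ j + 1 by omega)
  have h1 : |∑ n ∈ NB Q a0 j, c n * (vv Q j₀ n) ^ 2 * K (vv Q j₀ n)| ≤ B * (UU j₀ (j + 1) ^ 2 * m) := by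
    calc |∑ n ∈ NB Q a0 j, c n * (vv Q j₀ n) ^ 2 * K (vv Q j₀ n)|
        ≤ ∑ n ∈ NB Q a0 j, |c n * (vv Q j₀ n) ^ 2 * K (vv Q j₀ n)| := Finset.abs_sum_le_sum_abs _ _
      _ ≤ ∑ n ∈ NB Q a0 j, |c n| * (UU j₀ (j + 1) ^ 2 * B) := by
          refine Finset.sum_le_sum fun n hn => ?_
          have hv := Pool.Agent.H96R3.BC.vv_mem (j₀ := j₀) hQ (NB_sub _ _ _ hn)
          rw [abs_mul, abs_mul, abs_of_nonneg (sq_nonneg (vv Q j₀ n)), mul_assoc]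
          apply mul_le_mul_of_nonneg_left _ (abs_nonneg _)
          apply mul_le_mul _ (hB _ hv.1 hv.2) (abs_nonneg _) (sq_nonneg _)
          exact pow_le_pow_left₀ (vv_nonneg _ _ _) hv.2 2
      _ = B * (UU j₀ (j + 1) ^ 2 * ∑ n ∈ NB Q a0 j, |c n|) := by rw [← Finset.sum_mul]; ring
      _ ≤ _ := by
          apply mul_le_mul_of_nonneg_left _ hB0
          exact mul_le_mul_of_nonneg_left hc (sq_nonneg _)
  have h2 : |∫ u in (UU j₀ j)..(UU j₀ (j + 1)), f u * K u| ≤ B * (hh j₀ j * F) := by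
    have := intervalIntegral.norm_integral_le_of_norm_le_const (a := UU j₀ j) (b := UU j₀ (j + 1)) (C := F * B)
      (f := fun u => f u * K u) (by
        intro u hu
        rw [Set.uIoc_of_le hU] at hu
        rw [Real.norm_eq_abs, abs_mul]
        exact mul_le_mul (hf u hu.1.le hu.2) (hB u hu.1.le hu.2) (abs_nonneg _) hF0)
    rw [Real.norm_eq_abs, abs_of_nonneg (sub_nonneg.2 hU)] at this
    refine this.trans (le_of_eq ?_)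
    unfold hh; ring
  linarith

lemma bl_le {Q j₀ : ℕ} {a0 : ℕ → ℝ} {w : ℕ → ℝ → ℝ} (hQ : 1 ≤ Q) (hj0 : 1 ≤ j₀) {c : ℕ → ℝ} {f : ℝ → ℝ} {j : ℕ} {v : ℝ}
    {B m F : ℝ} (hB0 : 0 ≤ B) (hF0 : 0 ≤ F)
    (hB : ∀ u, UU j₀ j ≤ u → u ≤ UU j₀ (j + 1) → |ee Q j₀ w j u v| ≤ B)
    (hc : ∑ n ∈ NB Q a0 j, |c n| ≤ m)
    (hf : ∀ u, UU j₀ j ≤ u → u ≤ UU j₀ (j + 1) → |f u| ≤ F) :
    |bl Q j₀ a0 w c f j v| ≤ B * (UU j₀ (j + 1) ^ 2 * m + hh j₀ j * F) := by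
  refine le_trans ?_ (cell_le (K := fun u => ee Q j₀ w j u v) hQ hj0 hB0 hF0 hB hc hf)
  unfold bl
  exact abs_sub _ _

lemma bl_cont (h1 : TaskKer1) {Q j₀ : ℕ} {C : ℝ} {a0 : ℕ → ℝ} {w : ℕ → ℝ → ℝ} (hw : Wts Q j₀ C a0 w)
    (c : ℕ → ℝ) {f : ℝ → ℝ} (hf : Continuous f) (j : ℕ) :
    Continuous fun v => bl Q j₀ a0 w c f j v := by
  unfold bl
  refine Continuous.sub ?_ ?_
  · refine continuous_finsetSum _ fun n _ => ?_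
    exact continuous_const.mul ((ee_cont h1 hw j).comp (continuous_const.prodMk continuous_id))
  · apply intervalIntegral.continuous_parametric_intervalIntegral_of_continuous'
    exact (hf.comp continuous_snd).mul ((ee_cont h1 hw j).comp (continuous_snd.prodMk continuous_fst))

/-- the four quantities of TASK SUM -/
noncomputable def qa (Q j₀ i : ℕ) : ℝ := ((CC Q (j₀ + i)).card : ℝ) * UU j₀ (j₀ + i + 1) ^ 2 *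
      (UU j₀ (j₀ + i + 1) - UU j₀ (j₀ + i)) ^ (4 * Q + 4)
noncomputable def qb (Q j₀ i : ℕ) : ℝ := ((CC Q (j₀ + i)).card : ℝ) * UU j₀ (j₀ + i + 1) ^ 2 *
      (UU j₀ (j₀ + i + 1) - UU j₀ (j₀ + i)) ^ (2 * Q + 1) / UU j₀ (j₀ + i) ^ (3 * Q + 2)
noncomputable def qc (Q j₀ i : ℕ) : ℝ := (UU j₀ (j₀ + i + 1) - UU j₀ (j₀ + i)) * UU j₀ (j₀ + i + 1) ^ (3 * Q + 2) *
      (UU j₀ (j₀ + i + 1) - UU j₀ (j₀ + i)) ^ (4 * Q + 4)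
noncomputable def qd (Q j₀ i : ℕ) : ℝ := (UU j₀ (j₀ + i + 1) - UU j₀ (j₀ + i)) * UU j₀ (j₀ + i + 1) ^ (3 * Q + 2) *
      (UU j₀ (j₀ + i + 1) - UU j₀ (j₀ + i)) ^ (2 * Q + 1) / UU j₀ (j₀ + i) ^ (3 * Q + 2)

/-- majorant of a cell -/
noncomputable def TT (Q j₀ : ℕ) (C s κ : ℝ) (i : ℕ) : ℝ :=
  (1 + C) * (s * (3 * qa Q j₀ i + qb Q j₀ i) + κ * (3 * qc Q j₀ i + qd Q j₀ i))

section
variable {Q j₀ : ℕ} {C s κ D : ℝ} {a0 : ℕ → ℝ} {w : ℕ → ℝ → ℝ} {c : ℕ → ℝ} {f : ℝ → ℝ}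

lemma f_cell (hj0 : 1 ≤ j₀) (hκ : 0 ≤ κ) (hD : 0 ≤ D)
    (hf : ∀ v : ℝ, 0 ≤ v → |f v| ≤ D * (κ * NN Q v)) {j : ℕ} (hj : j₀ ≤ j) :
    ∀ u, UU j₀ j ≤ u → u ≤ UU j₀ (j + 1) → |f u| ≤ D * (κ * UU j₀ (j + 1) ^ (3 * Q + 2)) := by
  intro u hu hu2
  have h1 : 1 ≤ u := (UU_one_le hj0 hj).trans hu
  refine (hf u (by linarith)).trans ?_
  rw [NN_of_ge h1]
  apply mul_le_mul_of_nonneg_left _ hD
  apply mul_le_mul_of_nonneg_left _ hκ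
  exact pow_le_pow_left₀ (by linarith) hu2 _

lemma mass_le (hs : 0 ≤ s) (hD : 0 ≤ D) {j : ℕ} (hlog : 1 ≤ Real.log j)
    (hc : ∑ n ∈ NB Q a0 j, |c n| ≤ D * (s * (CC Q j).card / (Real.log j) ^ 3)) :
    ∑ n ∈ NB Q a0 j, |c n| ≤ D * (s * (CC Q j).card) := by
  refine hc.trans ?_
  apply mul_le_mul_of_nonneg_left _ hD
  apply div_le_self (by positivity)
  exact one_le_pow₀ hlog

lemma bl_large (h1 : TaskKer1) (h2 : TaskKer2) (hd : TaskDef) (hQ : 1 ≤ Q) (hj0 : 3 ≤ j₀) (hC : 0 ≤ C)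
    (hw : Wts Q j₀ C a0 w) (hs : 0 ≤ s) (hκ : 0 ≤ κ) (hD : 0 ≤ D)
    (hc : ∀ j, j₀ ≤ j → ∑ n ∈ NB Q a0 j, |c n| ≤ D * (s * (CC Q j).card / (Real.log j) ^ 3))
    (hf : ∀ v : ℝ, 0 ≤ v → |f v| ≤ D * (κ * NN Q v)) (i : ℕ) {v : ℝ} (hv : 0 ≤ v) :
    |bl Q j₀ a0 w c f (j₀ + i) v| * WW Q v ≤ D * TT Q j₀ C s κ i := by
  have hlog : 1 ≤ Real.log ((j₀ + i : ℕ) : ℝ) := by
    rw [Real.le_log_iff_exp_le (by positivity)]
    have : (3:ℝ) ≤ ((j₀ + i : ℕ) : ℝ) := by exact_mod_cast (by omega : 3 ≤ j₀ + i)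
    have := Real.exp_one_lt_d9
    linarith
  have hWp := WW_pos Q v
  have hE := EB_nonneg (Q := Q) (j₀ := j₀) hC (j₀ + i)
  have hb := bl_le (Q := Q) (j₀ := j₀) (a0 := a0) (w := w) (c := c) (f := f) (j := j₀ + i) (v := v)
    (B := EB Q j₀ C (j₀ + i) / WW Q v) (m := D * (s * (CC Q (j₀ + i)).card))
    (F := D * (κ * UU j₀ (j₀ + i + 1) ^ (3 * Q + 2))) hQ (by omega) (by positivity)
    (by have := UU_nonneg j₀ (j₀ + i + 1); positivity)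
    (fun u hu hu2 => by
      rw [le_div_iff₀ hWp]
      exact ee_le h1 h2 hd hQ (by omega) hC hw (by omega) hu hu2 hv)
    (mass_le hs hD hlog (hc _ (by omega)))
    (f_cell (by omega) hκ hD hf (by omega))
  calc |bl Q j₀ a0 w c f (j₀ + i) v| * WW Q v
      ≤ (EB Q j₀ C (j₀ + i) / WW Q v * (UU j₀ (j₀ + i + 1) ^ 2 * (D * (s * (CC Q (j₀ + i)).card)) +
        hh j₀ (j₀ + i) * (D * (κ * UU j₀ (j₀ + i + 1) ^ (3 * Q + 2))))) * WW Q v :=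
        mul_le_mul_of_nonneg_right hb hWp.le
    _ = EB Q j₀ C (j₀ + i) * (UU j₀ (j₀ + i + 1) ^ 2 * (D * (s * (CC Q (j₀ + i)).card)) +
        hh j₀ (j₀ + i) * (D * (κ * UU j₀ (j₀ + i + 1) ^ (3 * Q + 2)))) := by
        field_simp
    _ = D * TT Q j₀ C s κ i := by
        unfold EB TT qa qb qc qd hh
        ring

lemma bl_small (h1 : TaskKer1) (h2 : TaskKer2) (hd : TaskDef) (hQ : 1 ≤ Q) (hj0 : 3 ≤ j₀) (hC : 0 ≤ C)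
    (hw : Wts Q j₀ C a0 w) (hs : 0 ≤ s) (hκ : 0 ≤ κ) (hD : 0 ≤ D)
    (hc : ∀ j, j₀ ≤ j → ∑ n ∈ NB Q a0 j, |c n| ≤ D * (s * (CC Q j).card / (Real.log j) ^ 3))
    (hf : ∀ v : ℝ, 0 ≤ v → |f v| ≤ D * (κ * NN Q v)) (i : ℕ) {v : ℝ} (hv : 0 ≤ v) :
    |bl Q j₀ a0 w c f (j₀ + i) v| ≤ D * (3 * (1 + C) * (s * qa Q j₀ i + κ * qc Q j₀ i)) * v ^ (4 * Q + 4) := by
  have hlog : 1 ≤ Real.log ((j₀ + i : ℕ) : ℝ) := by
    rw [Real.le_log_iff_exp_le (by positivity)]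
    have : (3:ℝ) ≤ ((j₀ + i : ℕ) : ℝ) := by exact_mod_cast (by omega : 3 ≤ j₀ + i)
    have := Real.exp_one_lt_d9
    linarith
  have hh0 := hh_nonneg j₀ (j₀ + i)
  have hb := bl_le (Q := Q) (j₀ := j₀) (a0 := a0) (w := w) (c := c) (f := f) (j := j₀ + i) (v := v)
    (B := 3 * (1 + C) * hh j₀ (j₀ + i) ^ (4 * Q + 4) * v ^ (4 * Q + 4)) (m := D * (s * (CC Q (j₀ + i)).card))
    (F := D * (κ * UU j₀ (j₀ + i + 1) ^ (3 * Q + 2))) hQ (by omega) (by positivity)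
    (by have := UU_nonneg j₀ (j₀ + i + 1); positivity)
    (fun u hu hu2 => ee_le_small h1 h2 hd hQ (by omega) hw (by omega) hu hu2 hv)
    (mass_le hs hD hlog (hc _ (by omega)))
    (f_cell (by omega) hκ hD hf (by omega))
  refine hb.trans (le_of_eq ?_)
  unfold qa qc hh
  ring

end

end Pool.Agent.H336R4.BC
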