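import Pool.Agent.H336R4.BC.FixB1

/-!
# BIGCOEF, TASK FIXB: the linear estimates
-/

set_option autoImplicit false

open Finset MeasureTheory

namespace Pool.Agent.H336R4.BC

open Pool.Agent.H96R3.BC

/-- the new coefficient of a prime -/
lemma XL_le {Q j₀ : ℕ} {C CS s κ D : ℝ} {a0 : ℕ → ℝ} {w : ℕ → ℝ → ℝ} {c : ℕ → ℝ} {f : ℝ → ℝ}
    (hQ : 1 ≤ Q) (hj0 : 3 ≤ j₀) (hC : 0 < C) (hCS : 0 < CS) (hs : 0 < s) (hκ : 0 < κ) (hD : 0 ≤ D)
    (hw : Wts Q j₀ C a0 w)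
    (hsum5 : ∀ j : ℕ, j₀ ≤ j → (UU j₀ (j + 1) - UU j₀ j) * UU j₀ (j + 1) ^ (3 * Q + 2) * (Real.log j) ^ 3 * (j₀ : ℝ) ^ (2 * Q) ≤
      CS * (CC Q j).card * UU j₀ j ^ 2 * (Real.log j₀) ^ 3)
    (hc : ∀ j, j₀ ≤ j → ∑ n ∈ NB Q a0 j, |c n| ≤ D * (s * (CC Q j).card / (Real.log j) ^ 3))
    (hf : ∀ v : ℝ, 0 ≤ v → |f v| ≤ D * (κ * NN Q v))
    (hsmall : 16 * (Q:ℝ) ^ 2 * C * (κ * CS * (Real.log j₀) ^ 3 / (j₀ : ℝ) ^ (2 * Q) + 2 * s) ≤ 1 / 2)
    {j : ℕ} (hj : j₀ ≤ j) {p : ℕ} (hp : p ∈ CC Q j) (hpp : p.Prime) :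
    |XL Q j₀ a0 w c f j p| ≤ D / 2 * (1 / (Real.log p) ^ 2) := by
  have hj3 : 3 ≤ j := hj0.trans hj
  have hjR : (3:ℝ) ≤ j := by exact_mod_cast hj3
  have hlog : 1 ≤ Real.log j := by
    rw [Real.le_log_iff_exp_le (by positivity)]
    have := Real.exp_one_lt_d9
    linarith
  have hcard : 0 < (CC Q j).card := Finset.card_pos.2 ⟨p, hp⟩
  have hcardR : (0:ℝ) < (CC Q j).card := by exact_mod_cast hcard
  have hUp : 0 < UU j₀ j := lt_of_lt_of_le one_pos (UU_one_le (by omega) hj)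
  have hU1 := UU_nonneg j₀ (j + 1)
  have hh0 := hh_nonneg j₀ j
  have hv := Pool.Agent.H96R3.BC.vv_mem (j₀ := j₀) hQ hp
  have hvp : 0 < vv Q j₀ p := hUp.trans_le hv.1
  have hj0R : (0:ℝ) < (j₀:ℝ) ^ (2 * Q) := by positivity
  -- bound of the numerator
  have hcell := cell_le (Q := Q) (j₀ := j₀) (a0 := a0) (c := c) (f := f) (j := j) (K := w p)
    (B := C * Real.log j / (CC Q j).card) (m := D * (s * (CC Q j).card / (Real.log j) ^ 3))
    (F := D * (κ * UU j₀ (j + 1) ^ (3 * Q + 2))) hQ (by omega) (by positivity) (by positivity)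
    (fun u hu hu2 => hw.bound j hj p hp u hu hu2) (hc j hj)
    (f_cell (by omega) hκ.le hD hf hj)
  have hnum : |(∫ u in (UU j₀ j)..(UU j₀ (j + 1)), f u * w p u) -
      ∑ n ∈ NB Q a0 j, c n * (vv Q j₀ n) ^ 2 * w p (vv Q j₀ n)| ≤
      C * Real.log j / (CC Q j).card * (UU j₀ (j + 1) ^ 2 * (D * (s * (CC Q j).card / (Real.log j) ^ 3)) +
        hh j₀ j * (D * (κ * UU j₀ (j + 1) ^ (3 * Q + 2)))) := by
    refine (abs_sub _ _).trans ?_
    rw [add_comm]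
    exact hcell
  -- the two parts
  have hpart1 : hh j₀ j * UU j₀ (j + 1) ^ (3 * Q + 2) ≤
      (CC Q j).card * UU j₀ j ^ 2 * (CS * (Real.log j₀) ^ 3 / ((Real.log j) ^ 3 * (j₀ : ℝ) ^ (2 * Q))) := by
    rw [mul_div_assoc', le_div_iff₀ (by positivity)]
    have := hsum5 j hj
    calc hh j₀ j * UU j₀ (j + 1) ^ (3 * Q + 2) * ((Real.log j) ^ 3 * (j₀ : ℝ) ^ (2 * Q))
        = (UU j₀ (j + 1) - UU j₀ j) * UU j₀ (j + 1) ^ (3 * Q + 2) * (Real.log j) ^ 3 * (j₀ : ℝ) ^ (2 * Q) := by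
          unfold hh; ring
      _ ≤ _ := this
      _ = _ := by ring
  have hpart2 : UU j₀ (j + 1) ^ 2 ≤ 2 * UU j₀ j ^ 2 := UU_succ_sq_le (by omega)
  have hnum2 : |(∫ u in (UU j₀ j)..(UU j₀ (j + 1)), f u * w p u) -
      ∑ n ∈ NB Q a0 j, c n * (vv Q j₀ n) ^ 2 * w p (vv Q j₀ n)| ≤
      D * C / (Real.log j) ^ 2 * (κ * CS * (Real.log j₀) ^ 3 / (j₀ : ℝ) ^ (2 * Q) + 2 * s) * UU j₀ j ^ 2 := by
    refine hnum.trans ?_
    calc C * Real.log j / (CC Q j).card * (UU j₀ (j + 1) ^ 2 * (D * (s * (CC Q j).card / (Real.log j) ^ 3)) +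
        hh j₀ j * (D * (κ * UU j₀ (j + 1) ^ (3 * Q + 2))))
        = C * Real.log j / (CC Q j).card * (UU j₀ (j + 1) ^ 2 * (D * (s * (CC Q j).card / (Real.log j) ^ 3)) +
        D * κ * (hh j₀ j * UU j₀ (j + 1) ^ (3 * Q + 2))) := by ring
      _ ≤ C * Real.log j / (CC Q j).card * ((2 * UU j₀ j ^ 2) * (D * (s * (CC Q j).card / (Real.log j) ^ 3)) +
        D * κ * ((CC Q j).card * UU j₀ j ^ 2 * (CS * (Real.log j₀) ^ 3 / ((Real.log j) ^ 3 * (j₀ : ℝ) ^ (2 * Q))))) := by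
          apply mul_le_mul_of_nonneg_left _ (by positivity)
          apply add_le_add
          · exact mul_le_mul_of_nonneg_right hpart2 (by positivity)
          · exact mul_le_mul_of_nonneg_left hpart1 (by positivity)
      _ = _ := by
          have : Real.log j ≠ 0 := by positivity
          field_simp
          ring
  have hlogp : 0 < Real.log p := Real.log_pos (by exact_mod_cast hpp.one_lt)
  have hlogp2 : Real.log p ≤ 4 * Q * Real.log j := by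
    have h1 : (p:ℝ) ≤ ((j:ℝ) ^ 2) ^ (2 * Q) := by
      have h2 : p ≤ (j + 1) ^ (2 * Q) := (mem_CC.1 hp).2
      have h3 : j + 1 ≤ j ^ 2 := by nlinarith
      exact_mod_cast h2.trans (Nat.pow_le_pow_left h3 _)
    calc Real.log p ≤ Real.log (((j:ℝ) ^ 2) ^ (2 * Q)) := Real.log_le_log (by exact_mod_cast hpp.pos) h1
      _ = 4 * Q * Real.log j := by
          rw [← pow_mul, Real.log_pow]; push_cast; ring
  unfold XL
  rw [abs_div, abs_of_pos (by positivity : 0 < vv Q j₀ p ^ 2), div_le_iff₀ (by positivity)]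
  refine hnum2.trans ?_
  have hinv : 1 / (Real.log j) ^ 2 ≤ 16 * (Q:ℝ) ^ 2 * (1 / (Real.log p) ^ 2) := by
    rw [mul_one_div, div_le_div_iff₀ (by positivity) (by positivity), one_mul]
    calc Real.log p ^ 2 ≤ (4 * Q * Real.log j) ^ 2 := pow_le_pow_left₀ hlogp.le hlogp2 2
      _ = _ := by ring
  set Z := κ * CS * (Real.log j₀) ^ 3 / (j₀ : ℝ) ^ (2 * Q) + 2 * s with hZ
  have hlogj0 : 0 ≤ Real.log j₀ := Real.log_natCast_nonneg _
  have hZ0 : 0 ≤ Z := by positivity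
  calc D * C / (Real.log j) ^ 2 * Z * UU j₀ j ^ 2
      = D * C * Z * (1 / (Real.log j) ^ 2) * UU j₀ j ^ 2 := by ring
    _ ≤ D * C * Z * (16 * (Q:ℝ) ^ 2 * (1 / (Real.log p) ^ 2)) * vv Q j₀ p ^ 2 := by
        apply mul_le_mul _ (pow_le_pow_left₀ hUp.le hv.1 2) (by positivity) (by positivity)
        exact mul_le_mul_of_nonneg_left hinv (by positivity)
    _ = D * (16 * (Q:ℝ) ^ 2 * C * Z) * (1 / (Real.log p) ^ 2) * vv Q j₀ p ^ 2 := by ring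
    _ ≤ D * (1 / 2) * (1 / (Real.log p) ^ 2) * vv Q j₀ p ^ 2 := by
        apply mul_le_mul_of_nonneg_right _ (by positivity)
        apply mul_le_mul_of_nonneg_right _ (by positivity)
        exact mul_le_mul_of_nonneg_left hsmall hD
    _ = _ := by ring

/-- the contribution of `[0,1]` -/
lemma low_le (h2 : TaskKer2) {Q : ℕ} (hQ : 2 ≤ Q) {f : ℝ → ℝ} {κ D : ℝ} (hκ : 0 ≤ κ) (hD : 0 ≤ D)
    (hf : ∀ v : ℝ, 0 ≤ v → |f v| ≤ D * (κ * NN Q v)) {v : ℝ} (hv : 0 ≤ v) :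
    |∫ u in (0:ℝ)..1, f u * ph Q (u * v)| * WW Q v ≤ D * κ / 3 := by
  have hWp := WW_pos Q v
  have hpt : ∀ u : ℝ, u ∈ Set.Icc (0:ℝ) 1 → |f u * ph Q (u * v)| ≤ 3 * D * κ / WW Q v * u ^ (3 * Q + 2) := by
    intro u hu
    have hu0 : 0 ≤ u := hu.1
    have h3 : |f u| ≤ D * (κ * u ^ (4 * Q + 3)) := by
      have := hf u hu0
      unfold NN at this
      rwa [if_pos hu.2] at this
    have h4 : u ^ (Q + 1) * (|ph Q (u * v)| * WW Q v) ≤ 3 := by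
      rcases le_total v 1 with h | h
      · rw [WW_of_le h, mul_one]
        calc u ^ (Q + 1) * |ph Q (u * v)| ≤ 1 * 3 :=
              mul_le_mul (pow_le_one₀ hu0 hu.2) (ph_le h2 Q (by positivity)) (abs_nonneg _) zero_le_one
          _ = 3 := one_mul _
      · rw [WW_of_ge h]
        have := ph_decay h2 Q (by omega) (show 0 ≤ u * v by positivity)
        calc u ^ (Q + 1) * (|ph Q (u * v)| * v ^ (Q + 1)) = |ph Q (u * v)| * (u * v) ^ (Q + 1) := by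
              rw [mul_pow]; ring
          _ ≤ 3 := this
    rw [abs_mul]
    have e : (u:ℝ) ^ (4 * Q + 3) = u ^ (3 * Q + 2) * u ^ (Q + 1) := by rw [← pow_add]; congr 1; ring
    calc |f u| * |ph Q (u * v)| ≤ D * (κ * u ^ (4 * Q + 3)) * |ph Q (u * v)| :=
          mul_le_mul_of_nonneg_right h3 (abs_nonneg _)
      _ = D * κ * u ^ (3 * Q + 2) / WW Q v * (u ^ (Q + 1) * (|ph Q (u * v)| * WW Q v)) := by
          rw [e]; field_simp
      _ ≤ D * κ * u ^ (3 * Q + 2) / WW Q v * 3 := mul_le_mul_of_nonneg_left h4 (by positivity)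
      _ = _ := by ring
  have hint : |∫ u in (0:ℝ)..1, f u * ph Q (u * v)| ≤ ∫ u in (0:ℝ)..1, 3 * D * κ / WW Q v * u ^ (3 * Q + 2) := by
    rw [← Real.norm_eq_abs]
    apply intervalIntegral.norm_integral_le_of_norm_le zero_le_one
    · refine Filter.Eventually.of_forall fun u hu => ?_
      exact hpt u ⟨hu.1.le, hu.2⟩
    · exact (continuous_const.mul (continuous_pow _)).intervalIntegrable _ _
  rw [intervalIntegral.integral_const_mul, integral_pow] at hint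
  have h5 : |∫ u in (0:ℝ)..1, f u * ph Q (u * v)| * WW Q v ≤
      (3 * D * κ / WW Q v * ((1 ^ (3 * Q + 2 + 1) - 0 ^ (3 * Q + 2 + 1)) / ((3 * Q + 2 : ℕ) + 1))) * WW Q v :=
    mul_le_mul_of_nonneg_right hint hWp.le
  refine h5.trans ?_
  rw [one_pow, zero_pow (by omega), sub_zero]
  have h6 : (3 * D * κ / WW Q v * (1 / (((3 * Q + 2 : ℕ) : ℝ) + 1))) * WW Q v = D * κ * (3 / (3 * Q + 3)) := by
    push_cast
    field_simp
    ring
  rw [h6]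
  have hQR : (2:ℝ) ≤ Q := by exact_mod_cast hQ
  have h7 : (3:ℝ) / (3 * Q + 3) ≤ 1 / 3 := by
    rw [div_le_div_iff₀ (by positivity) (by norm_num)]
    linarith
  calc D * κ * (3 / (3 * Q + 3)) ≤ D * κ * (1 / 3) := mul_le_mul_of_nonneg_left h7 (by positivity)
    _ = D * κ / 3 := by ring

lemma q_nonneg (Q j₀ i : ℕ) : 0 ≤ qa Q j₀ i ∧ 0 ≤ qb Q j₀ i ∧ 0 ≤ qc Q j₀ i ∧ 0 ≤ qd Q j₀ i := by
  have h1 : 0 ≤ UU j₀ (j₀ + i + 1) - UU j₀ (j₀ + i) := hh_nonneg j₀ (j₀ + i)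
  have h2 := UU_nonneg j₀ (j₀ + i + 1)
  have h3 := UU_nonneg j₀ (j₀ + i)
  unfold qa qb qc qd
  refine ⟨by positivity, by positivity, by positivity, by positivity⟩

lemma vv_one_sq {Q j₀ : ℕ} (hQ : 1 ≤ Q) (hj : 1 ≤ j₀) : vv Q j₀ 1 ^ 2 = 1 / (j₀ : ℝ) := by
  have h := vv_pow (j₀ := j₀) hQ 1
  have h2 : (vv Q j₀ 1 ^ 2) ^ (2 * Q) = (1 / (j₀ : ℝ)) ^ (2 * Q) := by
    rw [← pow_mul, div_pow, one_pow]
    have : 2 * (2 * Q) = 4 * Q := by ring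
    rw [this, h, Nat.cast_one]
  exact (pow_left_inj₀ (sq_nonneg _) (by positivity) (by omega)).1 h2

lemma source_le (h2 : TaskKer2) {Q j₀ : ℕ} (hQ : 1 ≤ Q) (hj : 12 ≤ j₀) {v : ℝ} (hv : 0 ≤ v) :
    |(vv Q j₀ 1) ^ 2 * KK (4 * Q + 4) (vv Q j₀ 1) v| ≤ (j₀ : ℝ) ^ Q / 4 * NN Q v := by
  have hWp := WW_pos Q v
  have hu := vv_pos (Q := Q) (j₀ := j₀) (n := 1) (by omega) le_rfl
  have hu1 := vv_one_le (Q := Q) (j₀ := j₀) hQ (by omega)
  set u := vv Q j₀ 1 with hudef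
  have husq : u ^ 2 = 1 / (j₀ : ℝ) := vv_one_sq hQ (by omega)
  have hjR : (12:ℝ) ≤ j₀ := by exact_mod_cast hj
  have hpow : u ^ (2 * Q) * (j₀ : ℝ) ^ Q = 1 := vv_one_pow hQ (by omega)
  have h4 : u ^ (Q + 1) * (|ph Q (u * v)| * WW Q v) ≤ 3 := by
    rcases le_total v 1 with h | h
    · rw [WW_of_le h, mul_one]
      calc u ^ (Q + 1) * |ph Q (u * v)| ≤ 1 * 3 :=
            mul_le_mul (pow_le_one₀ hu.le hu1) (ph_le h2 Q (by positivity)) (abs_nonneg _) zero_le_one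
        _ = 3 := one_mul _
    · rw [WW_of_ge h]
      have := ph_decay h2 Q hQ (show 0 ≤ u * v by positivity)
      calc u ^ (Q + 1) * (|ph Q (u * v)| * v ^ (Q + 1)) = |ph Q (u * v)| * (u * v) ^ (Q + 1) := by
            rw [mul_pow]; ring
        _ ≤ 3 := this
  have h5 : u ^ (2 * Q) ≤ u ^ (Q + 1) := pow_le_pow_of_le_one hu.le hu1 (by omega)
  have h6 : |ph Q (u * v)| * WW Q v ≤ 3 * (j₀ : ℝ) ^ Q := by
    have h7 : u ^ (2 * Q) * (|ph Q (u * v)| * WW Q v) ≤ 3 :=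
      (mul_le_mul_of_nonneg_right h5 (by positivity)).trans h4
    calc |ph Q (u * v)| * WW Q v = (u ^ (2 * Q) * (j₀ : ℝ) ^ Q) * (|ph Q (u * v)| * WW Q v) := by
          rw [hpow, one_mul]
      _ = (u ^ (2 * Q) * (|ph Q (u * v)| * WW Q v)) * (j₀ : ℝ) ^ Q := by ring
      _ ≤ 3 * (j₀ : ℝ) ^ Q := mul_le_mul_of_nonneg_right h7 (by positivity)
  rw [KK_eq, NN_eq Q hv, abs_mul, abs_mul, abs_of_nonneg (sq_nonneg u),
    abs_of_nonneg (by positivity : (0:ℝ) ≤ v ^ (4 * Q + 3)), husq]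
  calc 1 / (j₀ : ℝ) * (v ^ (4 * Q + 3) * |ph Q (u * v)|)
      = 1 / (j₀ : ℝ) * (|ph Q (u * v)| * WW Q v) * (v ^ (4 * Q + 3) / WW Q v) := by field_simp
    _ ≤ 1 / (j₀ : ℝ) * (3 * (j₀ : ℝ) ^ Q) * (v ^ (4 * Q + 3) / WW Q v) := by
        apply mul_le_mul_of_nonneg_right _ (by positivity)
        exact mul_le_mul_of_nonneg_left h6 (by positivity)
    _ ≤ (j₀ : ℝ) ^ Q / 4 * (v ^ (4 * Q + 3) / WW Q v) := by
        apply mul_le_mul_of_nonneg_right _ (by positivity)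
        have : 1 / (j₀ : ℝ) ≤ 1 / 12 := one_div_le_one_div_of_le (by norm_num) hjR
        have h8 : (0:ℝ) ≤ (j₀ : ℝ) ^ Q := by positivity
        nlinarith

lemma exists_J (ε : ℝ) (hε : 0 < ε) : ∃ J : ℕ, ∀ j : ℕ, J ≤ j → (Real.log j) ^ 3 / (j : ℝ) ≤ ε := by
  have h := (Real.isLittleO_pow_log_id_atTop (n := 3)).bound hε
  have h2 := (tendsto_natCast_atTop_atTop (R := ℝ)).eventually h
  obtain ⟨J, hJ⟩ := Filter.eventually_atTop.1 h2
  refine ⟨max J 1, fun j hj => ?_⟩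
  have h3 := hJ j ((le_max_left _ _).trans hj)
  have hj1 : (1:ℝ) ≤ j := by exact_mod_cast (le_max_right _ _).trans hj
  simp only [id, Real.norm_eq_abs] at h3
  rw [div_le_iff₀ (by linarith)]
  rw [abs_of_nonneg (by linarith : (0:ℝ) ≤ j)] at h3
  exact (le_abs_self _).trans h3

end Pool.Agent.H336R4.BC
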